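import Pool.Agent.Lib.MP_47f674_lc.Main
import Pool.Agent.Lib.MP_a1ec0a_al.S1

/-! Formulas as a `Primcodable` type; provability in `L_A` and the graph of the Goedel numbering
are recursively enumerable. -/

set_option autoImplicit false

namespace Pool.Agent.Lib.VR58

open Pool.Agent.Lib.MP_47f674_lc Pool.Agent.Lib.MP_a1ec0a_al

/-- A bijective numbering of the formulas. -/
def enc : Fm → ℕ
  | .bot => 0
  | .var n => 4 * n + 1
  | .and a b => 4 * Nat.pair (enc a) (enc b) + 2
  | .or a b => 4 * Nat.pair (enc a) (enc b) + 3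
  | .imp a b => 4 * Nat.pair (enc a) (enc b) + 4

theorem enc_inj : ∀ a b : Fm, enc a = enc b → a = b := by
  intro a
  induction a with
  | var n => intro b h; cases b <;> simp only [enc] at h <;> first | omega | (congr 1; omega)
  | bot => intro b h; cases b <;> simp only [enc] at h <;> first | rfl | omega
  | and a₁ a₂ h₁ h₂ =>
    intro b h
    cases b <;> simp only [enc] at h <;> try omega
    rename_i b₁ b₂
    have : Nat.pair (enc a₁) (enc a₂) = Nat.pair (enc b₁) (enc b₂) := by omega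
    rw [Nat.pair_eq_pair] at this
    rw [h₁ _ this.1, h₂ _ this.2]
  | or a₁ a₂ h₁ h₂ =>
    intro b h
    cases b <;> simp only [enc] at h <;> try omega
    rename_i b₁ b₂
    have : Nat.pair (enc a₁) (enc a₂) = Nat.pair (enc b₁) (enc b₂) := by omega
    rw [Nat.pair_eq_pair] at this
    rw [h₁ _ this.1, h₂ _ this.2]
  | imp a₁ a₂ h₁ h₂ =>
    intro b h
    cases b <;> simp only [enc] at h <;> try omega
    rename_i b₁ b₂
    have : Nat.pair (enc a₁) (enc a₂) = Nat.pair (enc b₁) (enc b₂) := by omega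
    rw [Nat.pair_eq_pair] at this
    rw [h₁ _ this.1, h₂ _ this.2]

theorem enc_surj (n : ℕ) : ∃ a, enc a = n := by
  induction n using Nat.strong_induction_on with
  | _ n ih =>
    rcases Nat.eq_zero_or_pos n with rfl | hn
    · exact ⟨.bot, rfl⟩
    obtain ⟨a, ha⟩ := ih ((n - 1) / 4).unpair.1
      (lt_of_le_of_lt (Nat.unpair_left_le _) (by omega))
    obtain ⟨b, hb⟩ := ih ((n - 1) / 4).unpair.2
      (lt_of_le_of_lt (Nat.unpair_right_le _) (by omega))
    have hp : Nat.pair (enc a) (enc b) = (n - 1) / 4 := by rw [ha, hb, Nat.pair_unpair]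
    have h4 : n % 4 = 1 ∨ n % 4 = 2 ∨ n % 4 = 3 ∨ n % 4 = 0 := by omega
    rcases h4 with h | h | h | h
    · exact ⟨.var ((n - 1) / 4), by simp only [enc]; omega⟩
    · exact ⟨.and a b, by simp only [enc, hp]; omega⟩
    · exact ⟨.or a b, by simp only [enc, hp]; omega⟩
    · exact ⟨.imp a b, by simp only [enc, hp]; omega⟩

/-- The numbering as an equivalence. -/
noncomputable def eqv : Fm ≃ ℕ := Equiv.ofBijective enc ⟨enc_inj, enc_surj⟩

noncomputable instance instPrimcodableFm : Primcodable Fm := Primcodable.ofEquiv ℕ eqv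

theorem pr_enc : PR enc := Primrec.of_equiv (e := eqv)

theorem pr_dec : PR eqv.symm := Primrec.of_equiv_symm (e := eqv)

theorem dec_enc (a : Fm) : eqv.symm (enc a) = a := eqv.symm_apply_apply a

variable {α γ : Type} [Primcodable α] [Primcodable γ]

@[fun_prop] theorem pr_pair {m n : α → ℕ} (hm : PR m) (hn : PR n) :
    PR (fun x => Nat.pair (m x) (n x)) := Primrec₂.natPair.comp hm hn

@[fun_prop] theorem pr_var {n : α → ℕ} (hn : PR n) : PR (fun x => Fm.var (n x)) := by
  have hd := pr_dec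
  refine PR.congr (f := fun x => eqv.symm (4 * n x + 1)) (by fun_prop) fun x => ?_
  exact dec_enc (.var (n x))

@[fun_prop] theorem pr_and {f g : α → Fm} (hf : PR f) (hg : PR g) :
    PR (fun x => Fm.and (f x) (g x)) := by
  have hd := pr_dec
  have he := pr_enc
  refine PR.congr (f := fun x => eqv.symm (4 * Nat.pair (enc (f x)) (enc (g x)) + 2))
    (by fun_prop) fun x => ?_
  exact dec_enc (.and (f x) (g x))

@[fun_prop] theorem pr_or {f g : α → Fm} (hf : PR f) (hg : PR g) :
    PR (fun x => Fm.or (f x) (g x)) := by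
  have hd := pr_dec
  have he := pr_enc
  refine PR.congr (f := fun x => eqv.symm (4 * Nat.pair (enc (f x)) (enc (g x)) + 3))
    (by fun_prop) fun x => ?_
  exact dec_enc (.or (f x) (g x))

@[fun_prop] theorem pr_imp {f g : α → Fm} (hf : PR f) (hg : PR g) :
    PR (fun x => Fm.imp (f x) (g x)) := by
  have hd := pr_dec
  have he := pr_enc
  refine PR.congr (f := fun x => eqv.symm (4 * Nat.pair (enc (f x)) (enc (g x)) + 4))
    (by fun_prop) fun x => ?_
  exact dec_enc (.imp (f x) (g x))

/-- Case analysis on a formula. -/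
def fcases {δ : Type} (f : Fm) (v : ℕ → δ) (b : δ) (an di im : Fm → Fm → δ) : δ :=
  match f with
  | .var n => v n
  | .bot => b
  | .and x y => an x y
  | .or x y => di x y
  | .imp x y => im x y

@[fun_prop] theorem pr_fcases {f : α → Fm} {v : α → ℕ → γ} {b : α → γ}
    {an di im : α → Fm → Fm → γ} (hf : PR f) (hv : PR fun p : α × ℕ => v p.1 p.2) (hb : PR b)
    (han : PR fun p : α × Fm × Fm => an p.1 p.2.1 p.2.2)
    (hdi : PR fun p : α × Fm × Fm => di p.1 p.2.1 p.2.2)
    (him : PR fun p : α × Fm × Fm => im p.1 p.2.1 p.2.2) :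
    PR fun x => fcases (f x) (v x) (b x) (an x) (di x) (im x) := by
  have hd := pr_dec
  have he := pr_enc
  have hu : PR Nat.unpair := Primrec.unpair
  have hq : PR fun x => (enc (f x) - 1) / 4 :=
    Primrec.nat_div.comp (PR.sub (PR.comp he hf) (PR.const 1)) (Primrec.const 4)
  have hm : PR fun x => enc (f x) % 4 := Primrec.nat_mod.comp (PR.comp he hf) (Primrec.const 4)
  have hlr : PR fun x => (x, eqv.symm ((enc (f x) - 1) / 4).unpair.1,
      eqv.symm ((enc (f x) - 1) / 4).unpair.2) :=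
    PR.prodMk PR.id' (PR.prodMk (PR.comp hd (PR.fst (PR.comp hu hq)))
      (PR.comp hd (PR.snd (PR.comp hu hq))))
  have h := PR.cond (PR.beq (PR.comp he hf) (PR.const 0)) hb
    (PR.cond (PR.beq hm (PR.const 1)) (PR.comp hv (PR.prodMk PR.id' hq))
      (PR.cond (PR.beq hm (PR.const 2)) (PR.comp han hlr)
        (PR.cond (PR.beq hm (PR.const 3)) (PR.comp hdi hlr) (PR.comp him hlr))))
  refine h.congr fun x => ?_
  cases f x with
  | var n =>
    have e1 : (4 * n + 1) % 4 = 1 := by omega
    simp [enc, fcases, e1]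
  | bot => simp [enc, fcases]
  | and a c =>
    have e1 : (4 * Nat.pair (enc a) (enc c) + 2) % 4 = 2 := by omega
    have e2 : (4 * Nat.pair (enc a) (enc c) + 2 - 1) / 4 = Nat.pair (enc a) (enc c) := by omega
    simp only [enc, fcases, e1, e2, Nat.unpair_pair, dec_enc]
    simp
  | or a c =>
    have e1 : (4 * Nat.pair (enc a) (enc c) + 3) % 4 = 3 := by omega
    have e2 : (4 * Nat.pair (enc a) (enc c) + 3 - 1) / 4 = Nat.pair (enc a) (enc c) := by omega
    simp only [enc, fcases, e1, e2, Nat.unpair_pair, dec_enc]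
    simp
  | imp a c =>
    have e1 : (4 * Nat.pair (enc a) (enc c) + 4) % 4 = 0 := by omega
    have e2 : (4 * Nat.pair (enc a) (enc c) + 4 - 1) / 4 = Nat.pair (enc a) (enc c) := by omega
    simp only [enc, fcases, e1, e2, Nat.unpair_pair, dec_enc]
    simp

@[fun_prop] theorem pr_conj {l : α → List Fm} (hl : PR l) : PR fun x => conj (l x) := by
  refine PR.congr (f := fun x => (l x).foldr (fun a s => Fm.and a s) top) (by fun_prop) fun x => ?_
  induction l x with
  | nil => rfl
  | cons a t ih => rw [List.foldr_cons, ih]; rfl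

@[fun_prop] theorem pr_disj {l : α → List Fm} (hl : PR l) : PR fun x => disj (l x) := by
  refine PR.congr (f := fun x => (l x).foldr (fun a s => Fm.or a s) .bot) (by fun_prop) fun x => ?_
  induction l x with
  | nil => rfl
  | cons a t ih => rw [List.foldr_cons, ih]; rfl

/-- Membership in a list of formulas, as a Boolean. -/
noncomputable def memB (a : Fm) (l : List Fm) : Bool := l.any fun b => b == a

theorem memB_iff (a : Fm) (l : List Fm) : memB a l = true ↔ a ∈ l := by simp [memB]

@[fun_prop] theorem pr_memB {f : α → Fm} {l : α → List Fm} (hf : PR f) (hl : PR l) :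
    PR fun x => memB (f x) (l x) := by
  unfold memB; fun_prop

/-! ### The graph of the Goedel numbering -/

def CodeRule (j : Fm × ℕ) (l : List (Fm × ℕ)) : Prop :=
  (∃ n : ℕ, j = (.var n, Nat.pair 0 n) ∧ l = []) ∨ (j = (.bot, Nat.pair 1 0) ∧ l = []) ∨
  ∃ a : Fm, ∃ b : Fm, ∃ m : ℕ, ∃ n : ℕ, l = [(a, m), (b, n)] ∧
    (j = (.and a b, Nat.pair 2 (Nat.pair m n)) ∨ j = (.or a b, Nat.pair 3 (Nat.pair m n)) ∨
      j = (.imp a b, Nat.pair 4 (Nat.pair m n)))

theorem der_code (j : Fm × ℕ) : Der CodeRule j ↔ j.2 = j.1.code := by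
  constructor
  · refine Der.sound (Sem := fun j : Fm × ℕ => j.2 = j.1.code) ?_
    rintro j l (⟨n, rfl, -⟩ | ⟨rfl, -⟩ | ⟨a, b, m, n, rfl, h⟩) hl
    · rfl
    · rfl
    · have h1 : m = a.code := hl (a, m) (by simp)
      have h2 : n = b.code := hl (b, n) (by simp)
      subst h1 h2
      rcases h with rfl | rfl | rfl <;> rfl
  · obtain ⟨a, n⟩ := j
    rintro (rfl : n = a.code)
    induction a with
    | var n => exact .mk _ [] (Or.inl ⟨n, rfl, rfl⟩) (by simp)
    | bot => exact .mk _ [] (Or.inr (Or.inl ⟨rfl, rfl⟩)) (by simp)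
    | and a b ha hb =>
      exact .mk _ _ (Or.inr (Or.inr ⟨a, b, _, _, rfl, Or.inl rfl⟩)) (by simp [ha, hb])
    | or a b ha hb =>
      exact .mk _ _ (Or.inr (Or.inr ⟨a, b, _, _, rfl, Or.inr (Or.inl rfl)⟩)) (by simp [ha, hb])
    | imp a b ha hb =>
      exact .mk _ _ (Or.inr (Or.inr ⟨a, b, _, _, rfl, Or.inr (Or.inr rfl)⟩)) (by simp [ha, hb])

theorem s1_code : S1 fun j : Fm × ℕ => j.2 = j.1.code :=
  (Der.s1 (Rule := CodeRule) (by unfold CodeRule; fun_prop)).congr der_code

/-- A recursively enumerable property of formulas has a recursively enumerable set of codes. -/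
theorem re_code {Q : Fm → Prop} (hQ : S1 Q) : REPred fun n : ℕ => ∃ A : Fm, n = A.code ∧ Q A :=
  S1.re (S1.ex (S1.and (s1_code.comp (g := fun x : ℕ × Fm => (x.2, x.1)) (by fun_prop))
    (hQ.comp (g := fun x : ℕ × Fm => x.2) (by fun_prop))))

/-! ### Substitution instances -/

def SubRule (j : List Fm × Fm × Fm) (l : List (List Fm × Fm × Fm)) : Prop :=
  (∃ n : ℕ, j.2 = (.var n, j.1.getD n .bot) ∧ l = []) ∨ (j.2 = (.bot, .bot) ∧ l = []) ∨
  ∃ a : Fm, ∃ b : Fm, ∃ c : Fm, ∃ d : Fm, l = [(j.1, a, c), (j.1, b, d)] ∧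
    (j.2 = (.and a b, .and c d) ∨ j.2 = (.or a b, .or c d) ∨ j.2 = (.imp a b, .imp c d))

theorem der_sub (j : List Fm × Fm × Fm) :
    Der SubRule j ↔ j.2.2 = j.2.1.subst fun n => j.1.getD n .bot := by
  constructor
  · refine Der.sound 
      (Sem := fun j : List Fm × Fm × Fm => j.2.2 = j.2.1.subst fun n => j.1.getD n .bot) ?_
    rintro ⟨σ, p⟩ l (⟨n, h, -⟩ | ⟨h, -⟩ | ⟨a, b, c, d, rfl, h⟩) hl
    · obtain rfl : p = (.var n, σ.getD n .bot) := h
      rfl
    · obtain rfl : p = _ := h
      rfl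
    · have h1 : c = a.subst fun n => σ.getD n .bot := hl (σ, a, c) (by simp)
      have h2 : d = b.subst fun n => σ.getD n .bot := hl (σ, b, d) (by simp)
      subst h1 h2
      rcases h with h | h | h <;> (obtain rfl : p = _ := h) <;> rfl
  · obtain ⟨σ, a, c⟩ := j
    rintro (rfl : c = a.subst fun n => σ.getD n .bot)
    induction a with
    | var n => exact .mk _ [] (Or.inl ⟨n, rfl, rfl⟩) (by simp)
    | bot => exact .mk _ [] (Or.inr (Or.inl ⟨rfl, rfl⟩)) (by simp)
    | and a b ha hb =>
      refine .mk _ _ (Or.inr (Or.inr ⟨a, b, _, _, rfl, Or.inl rfl⟩)) fun i hi => ?_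
      simp only [List.mem_cons, List.not_mem_nil, or_false] at hi
      rcases hi with rfl | rfl <;> assumption
    | or a b ha hb =>
      refine .mk _ _ (Or.inr (Or.inr ⟨a, b, _, _, rfl, Or.inr (Or.inl rfl)⟩)) fun i hi => ?_
      simp only [List.mem_cons, List.not_mem_nil, or_false] at hi
      rcases hi with rfl | rfl <;> assumption
    | imp a b ha hb =>
      refine .mk _ _ (Or.inr (Or.inr ⟨a, b, _, _, rfl, Or.inr (Or.inr rfl)⟩)) fun i hi => ?_
      simp only [List.mem_cons, List.not_mem_nil, or_false] at hi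
      rcases hi with rfl | rfl <;> assumption

theorem subst_list (σ : ℕ → Fm) (a : Fm) :
    ∃ N, ∀ M, N ≤ M → a.subst σ = a.subst fun n => ((List.range M).map σ).getD n .bot := by
  induction a with
  | var n =>
    refine ⟨n + 1, fun M hM => ?_⟩
    have : n < M := by omega
    simp [Fm.subst, List.getD_eq_getElem?_getD, this]
  | bot => exact ⟨0, fun _ _ => rfl⟩
  | and a b ha hb =>
    obtain ⟨N, hN⟩ := ha
    obtain ⟨N', hN'⟩ := hb
    refine ⟨max N N', fun M hM => ?_⟩
    simp only [Fm.subst, ← hN M (by omega), ← hN' M (by omega)]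
  | or a b ha hb =>
    obtain ⟨N, hN⟩ := ha
    obtain ⟨N', hN'⟩ := hb
    refine ⟨max N N', fun M hM => ?_⟩
    simp only [Fm.subst, ← hN M (by omega), ← hN' M (by omega)]
  | imp a b ha hb =>
    obtain ⟨N, hN⟩ := ha
    obtain ⟨N', hN'⟩ := hb
    refine ⟨max N N', fun M hM => ?_⟩
    simp only [Fm.subst, ← hN M (by omega), ← hN' M (by omega)]

theorem s1_inst : S1 fun j : Fm × Fm => ∃ σ : ℕ → Fm, j.2 = j.1.subst σ := by
  have h : S1 (Der SubRule) := Der.s1 (Rule := SubRule) (by unfold SubRule; fun_prop)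
  refine (S1.ex (p := fun (j : Fm × Fm) (σ : List Fm) => Der SubRule (σ, j))
    (h.comp (g := fun x : (Fm × Fm) × List Fm => (x.2, x.1)) (by fun_prop))).congr fun j => ?_
  simp only [der_sub]
  constructor
  · rintro ⟨σ, h⟩
    exact ⟨_, h⟩
  · rintro ⟨σ, h⟩
    obtain ⟨N, hN⟩ := subst_list σ j.1
    exact ⟨(List.range N).map σ, h.trans (hN N le_rfl)⟩

/-! ### Provability -/

theorem s1_ax : S1 IPCAx := by
  refine S1.congr (p := fun f : Fm => ∃ a : Fm, ∃ b : Fm, ∃ c : Fm,
    f = .imp a (.imp b a) ∨ f = .imp (.imp a (.imp b c)) (.imp (.imp a b) (.imp a c)) ∨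
    f = .imp (.and a b) a ∨ f = .imp (.and a b) b ∨ f = .imp a (.imp b (.and a b)) ∨
    f = .imp a (.or a b) ∨ f = .imp b (.or a b) ∨
    f = .imp (.imp a c) (.imp (.imp b c) (.imp (.or a b) c)) ∨ f = .imp .bot a)
    (by fun_prop) fun f => ?_
  constructor
  · rintro ⟨a, b, c, rfl | rfl | rfl | rfl | rfl | rfl | rfl | rfl | rfl⟩ <;> constructor
  · intro h
    cases h with
    | k a b => exact ⟨a, b, a, by simp⟩
    | s a b c => exact ⟨a, b, c, by simp⟩
    | andL a b => exact ⟨a, b, a, by simp⟩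
    | andR a b => exact ⟨a, b, a, by simp⟩
    | andI a b => exact ⟨a, b, a, by simp⟩
    | orL a b => exact ⟨a, b, a, by simp⟩
    | orR a b => exact ⟨a, b, a, by simp⟩
    | orE a b c => exact ⟨a, b, c, by simp⟩
    | efq a => exact ⟨a, a, a, by simp⟩

def ProvRule (j : Fm × Fm) (l : List (Fm × Fm)) : Prop :=
  (IPCAx j.2 ∧ l = []) ∨ ((∃ σ : ℕ → Fm, j.2 = j.1.subst σ) ∧ l = []) ∨
    ∃ a : Fm, l = [(j.1, .imp a j.2), (j.1, a)]

theorem der_prov (j : Fm × Fm) : Der ProvRule j ↔ j.2 ∈ Logic j.1 := by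
  constructor
  · refine Der.sound (Sem := fun j : Fm × Fm => j.2 ∈ Logic j.1) ?_
    rintro ⟨A, b⟩ l (⟨h, -⟩ | ⟨h, -⟩ | ⟨a, rfl⟩) hl
    · exact Deriv.ax h
    · exact Deriv.hyp h
    · exact Deriv.mp (hl (A, .imp a b) (by simp)) (hl (A, a) (by simp))
  · obtain ⟨A, b⟩ := j
    intro h
    change Deriv _ b at h
    induction h with
    | ax h => exact .mk _ [] (Or.inl ⟨h, rfl⟩) (by simp)
    | hyp h => exact .mk _ [] (Or.inr (Or.inl ⟨h, rfl⟩)) (by simp)
    | @mp a _ _ _ h1 h2 =>
      refine .mk _ _ (Or.inr (Or.inr ⟨a, rfl⟩)) fun i hi => ?_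
      simp only [List.mem_cons, List.not_mem_nil, or_false] at hi
      rcases hi with rfl | rfl <;> assumption

theorem s1_prov' : S1 fun j : Fm × Fm => j.2 ∈ Logic j.1 := by
  refine (Der.s1 (Rule := ProvRule) ?_).congr der_prov
  unfold ProvRule
  exact S1.or (S1.and (s1_ax.comp (by fun_prop)) (by fun_prop))
    (S1.or (S1.and (s1_inst.comp (g := fun x : (Fm × Fm) × List (Fm × Fm) => x.1) (by fun_prop))
      (by fun_prop)) (by fun_prop))

/-- Provability in `L_A` is recursively enumerable, uniformly in `A`. -/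
theorem s1_prov {A B : α → Fm} (hA : PR A) (hB : PR B) : S1 fun x => B x ∈ Logic (A x) :=
  s1_prov'.comp (g := fun x => (A x, B x)) (by fun_prop)

/-! ### Sublists and tuples -/

/-- All sublists. -/
def subl {β : Type} (l : List β) : List (List β) :=
  l.foldr (fun b s => s ++ s.map (b :: ·)) [[]]

theorem mem_subl {β : Type} (l t : List β) : t ∈ subl l ↔ t.Sublist l := by
  induction l generalizing t with
  | nil => simp [subl]
  | cons b l ih =>
    change t ∈ subl l ++ (subl l).map (b :: ·) ↔ _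
    simp only [List.mem_append, List.mem_map, ih, List.sublist_cons_iff]
    constructor
    · rintro (h | ⟨r, h, rfl⟩)
      · exact Or.inl h
      · exact Or.inr ⟨r, rfl, h⟩
    · rintro (h | ⟨r, rfl, h⟩)
      · exact Or.inl h
      · exact Or.inr ⟨r, h, rfl⟩

@[fun_prop] theorem pr_subl {l : α → List γ} (hl : PR l) : PR fun x => subl (l x) := by
  unfold subl; fun_prop

/-- All lists of length `n` with entries from `l`. -/
def tuples {β : Type} (l : List β) (n : ℕ) : List (List β) :=
  (List.range n).foldr (fun _ s => l.flatMap fun b => s.map (b :: ·)) [[]]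

theorem mem_tuples {β : Type} (l : List β) (n : ℕ) (t : List β) :
    t ∈ tuples l n ↔ t.length = n ∧ ∀ b ∈ t, b ∈ l := by
  have key : ∀ (r : List ℕ) (t : List β),
      t ∈ r.foldr (fun _ s => l.flatMap fun b => s.map (b :: ·)) [[]] ↔
        t.length = r.length ∧ ∀ b ∈ t, b ∈ l := by
    intro r
    induction r with
    | nil => intro t; cases t <;> simp
    | cons _ r ih =>
      intro t
      simp only [List.foldr_cons, List.mem_flatMap, List.mem_map, ih, List.length_cons]
      constructor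
      · rintro ⟨b, hb, s, ⟨h1, h2⟩, rfl⟩
        exact ⟨by simp [h1], by simpa [hb] using h2⟩
      · rintro ⟨h1, h2⟩
        cases t with
        | nil => simp at h1
        | cons b s =>
          exact ⟨b, h2 b (by simp), s, ⟨by simpa using h1, fun c hc => h2 c (by simp [hc])⟩, rfl⟩
  simpa [tuples] using key (List.range n) t

@[fun_prop] theorem pr_tuples {l : α → List γ} {n : α → ℕ} (hl : PR l) (hn : PR n) :
    PR fun x => tuples (l x) (n x) := by
  unfold tuples; fun_prop

end Pool.Agent.Lib.VR58
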